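import Pool.Agent.Run7.h381.WU.Stm

/-!
# Project WU (MP_688e31_pr): the probability that two vertices are separated, finite classes
-/

set_option autoImplicit false

namespace Run7.h104.WU

open MeasureTheory Filter Finset
open scoped ENNReal Topology unitInterval
open Run7.h381.WU
open Pool.Agent.H424R3.Pow (RandomRootedGraph graphSigma hitWithin returnWithin nbrAvg Recurrent)

lemma vol_btw (a b : ℝ) : (volume : Measure I) {x | a ≤ (x : ℝ) ∧ (x : ℝ) < b} ≤ ENNReal.ofReal (b - a) := by
  rw [unitInterval.volume_apply, ← Real.volume_Ico]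
  refine measure_mono ?_
  rintro _ ⟨x, hx, rfl⟩
  exact ⟨hx.1, hx.2⟩

lemma vol_ge (t : ℝ) : (volume : Measure I) {x | t ≤ (x : ℝ)} ≤ ENNReal.ofReal (Real.exp (-t)) := by
  have h : (volume : Measure I) {x | t ≤ (x : ℝ)} ≤ ENNReal.ofReal (1 - t) := by
    rw [unitInterval.volume_apply, ← Real.volume_Icc]
    refine measure_mono ?_
    rintro _ ⟨x, hx, rfl⟩
    exact ⟨hx, x.2.2⟩
  refine h.trans (ENNReal.ofReal_le_ofReal ?_)
  have := Real.add_one_le_exp (-t)
  linarith

lemma meas_coord {V : Type} (w : V) {s : Set I} (hs : MeasurableSet s) :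
    labels V {τ | τ w ∈ s} = volume s := by
  have h := (measurePreserving_eval_infinitePi (fun _ : V => (volume : Measure I)) w).measure_preimage
    hs.nullMeasurableSet
  exact h

lemma meas_btw (a b : ℝ) : MeasurableSet {x : I | a ≤ (x : ℝ) ∧ (x : ℝ) < b} :=
  (measurableSet_le measurable_const measurable_subtype_coe).inter
    (measurableSet_lt measurable_subtype_coe measurable_const)

lemma meas_ge (a : ℝ) : MeasurableSet {x : I | a ≤ (x : ℝ)} :=
  measurableSet_le measurable_const measurable_subtype_coe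

theorem CUT (hW : S_WALK) : S_CUT := by
  classical
  intro V _ G hf hne c N M hc hN x y
  obtain ⟨h0, h1, h2, -⟩ := hW V G hf N hN
  obtain ⟨W1, hW1, hs1⟩ := h2 hne x
  obtain ⟨W2, hW2, -⟩ := h2 hne y
  set A : Set (V → I) := (W1 : Set V).pi (fun w => {t : I | c * hh G N x w ≤ (t : ℝ)}) with hA
  set Bw : V → Set I := fun w => {t : I | min (c * hh G N x w) (c * hh G N y w) ≤ (t : ℝ) ∧
    (t : ℝ) < max (c * hh G N x w) (c * hh G N y w)} with hB
  have hsub : {τ | ¬ sim c N G τ x y} ⊆ A ∪ ⋃ w ∈ W1 ∪ W2, {τ : V → I | τ w ∈ Bw w} := by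
    intro τ hτ
    have hτ' : ¬ (x = y ∨ (SS c N G τ x = SS c N G τ y ∧ (SS c N G τ x).Nonempty)) := hτ
    push Not at hτ'
    by_cases hemp : SS c N G τ x = ∅
    · left
      intro w _
      have : w ∉ SS c N G τ x := by rw [hemp]; exact Set.notMem_empty w
      exact not_lt.1 (show ¬ ((τ w : ℝ) < c * hh G N x w) from this)
    · right
      have hne2 : SS c N G τ x ≠ SS c N G τ y := by
        intro h
        have := hτ'.2 h
        exact hemp this
      have : ∃ w, ¬ (w ∈ SS c N G τ x ↔ w ∈ SS c N G τ y) := by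
        by_contra hcon
        push Not at hcon
        exact hne2 (Set.ext hcon)
      obtain ⟨w, hw⟩ := this
      have e1 : w ∈ SS c N G τ x ↔ (τ w : ℝ) < c * hh G N x w := Iff.rfl
      have e2 : w ∈ SS c N G τ y ↔ (τ w : ℝ) < c * hh G N y w := Iff.rfl
      rw [e1, e2] at hw
      have hmem : w ∈ W1 ∪ W2 := by
        by_contra hcon
        rw [Finset.mem_union, not_or] at hcon
        rw [hW1 w hcon.1, hW2 w hcon.2, mul_zero] at hw
        exact hw Iff.rfl
      refine Set.mem_biUnion hmem ?_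
      show min _ _ ≤ (τ w : ℝ) ∧ (τ w : ℝ) < max _ _
      by_cases ha : (τ w : ℝ) < c * hh G N x w
      · have hb : ¬ (τ w : ℝ) < c * hh G N y w := fun hb => hw ⟨fun _ => hb, fun _ => ha⟩
        exact ⟨(min_le_right _ _).trans (not_lt.1 hb), ha.trans_le (le_max_left _ _)⟩
      · have hb : (τ w : ℝ) < c * hh G N y w := by
          by_contra hb
          exact hw ⟨fun h => absurd h ha, fun h => absurd h hb⟩
        exact ⟨(min_le_left _ _).trans (not_lt.1 ha), hb.trans_le (le_max_right _ _)⟩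
  have hAm : labels V A ≤ ENNReal.ofReal (Real.exp (-c)) := by
    rw [hA, labels, Measure.infinitePi_pi _ (fun w _ => meas_ge _)]
    calc ∏ w ∈ W1, (volume : Measure I) {t : I | c * hh G N x w ≤ (t : ℝ)}
        ≤ ∏ w ∈ W1, ENNReal.ofReal (Real.exp (-(c * hh G N x w))) :=
          Finset.prod_le_prod' fun w _ => vol_ge _
      _ = ENNReal.ofReal (∏ w ∈ W1, Real.exp (-(c * hh G N x w))) :=
          (ENNReal.ofReal_prod_of_nonneg fun w _ => (Real.exp_pos _).le).symm
      _ = ENNReal.ofReal (Real.exp (-c)) := by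
          rw [← Real.exp_sum]
          congr 2
          rw [Finset.sum_neg_distrib, ← Finset.mul_sum, hs1, mul_one]
  have hBm : ∀ w, labels V {τ : V → I | τ w ∈ Bw w} ≤
      ENNReal.ofReal (c * |hh G N x w - hh G N y w|) := by
    intro w
    rw [meas_coord w (meas_btw _ _)]
    refine (vol_btw _ _).trans (le_of_eq ?_)
    congr 1
    rw [max_sub_min_eq_abs', ← mul_sub, abs_mul, abs_of_pos hc]
  have hsum : ∑ w ∈ W1 ∪ W2, |hh G N x w - hh G N y w| ≤ 2 * (1 - hitWithin G x M y) + 2 * M / N :=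
    h1 x y M (W1 ∪ W2)
  calc labels V {τ | ¬ sim c N G τ x y}
      ≤ labels V (A ∪ ⋃ w ∈ W1 ∪ W2, {τ : V → I | τ w ∈ Bw w}) := measure_mono hsub
    _ ≤ labels V A + labels V (⋃ w ∈ W1 ∪ W2, {τ : V → I | τ w ∈ Bw w}) := measure_union_le _ _
    _ ≤ ENNReal.ofReal (Real.exp (-c)) +
        ∑ w ∈ W1 ∪ W2, ENNReal.ofReal (c * |hh G N x w - hh G N y w|) :=
        add_le_add hAm ((measure_biUnion_finset_le _ _).trans (Finset.sum_le_sum fun w _ => hBm w))
    _ = ENNReal.ofReal (Real.exp (-c) + c * ∑ w ∈ W1 ∪ W2, |hh G N x w - hh G N y w|) := by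
        rw [ENNReal.ofReal_add (Real.exp_pos _).le
          (mul_nonneg hc.le (Finset.sum_nonneg fun w _ => abs_nonneg _)), Finset.mul_sum,
          ENNReal.ofReal_sum_of_nonneg fun w _ => mul_nonneg hc.le (abs_nonneg _)]
    _ ≤ ENNReal.ofReal (Real.exp (-c) + c * (2 * (1 - hitWithin G x M y) + 2 * M / N)) :=
        ENNReal.ofReal_le_ofReal (by
          have := mul_le_mul_of_nonneg_left hsum hc.le
          linarith)

theorem FINC (hW : S_WALK) : S_FINC := by
  intro V G hf c N τ x hN
  obtain ⟨h0, -, -, h3⟩ := hW V G hf N hN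
  by_cases hemp : (SS c N G τ x).Nonempty
  · obtain ⟨w, hw⟩ := hemp
    refine ((Set.finite_singleton x).union (h3 w)).subset ?_
    intro y hy
    have hy' : x = y ∨ (SS c N G τ x = SS c N G τ y ∧ (SS c N G τ x).Nonempty) := hy
    rcases hy' with rfl | ⟨h, -⟩
    · exact Or.inl rfl
    · right
      rw [h] at hw
      have hw' : (τ w : ℝ) < c * hh G N y w := hw
      show hh G N y w ≠ 0
      intro h00
      rw [h00, mul_zero] at hw'
      exact absurd hw' (not_lt.2 (τ w).2.1)
  · refine (Set.finite_singleton x).subset ?_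
    intro y hy
    have hy' : x = y ∨ (SS c N G τ x = SS c N G τ y ∧ (SS c N G τ x).Nonempty) := hy
    rcases hy' with rfl | ⟨-, h⟩
    · rfl
    · exact absurd h hemp

end Run7.h104.WU
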