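import Pool.Agent.Run7.h104.WU.EqvB
import Pool.Agent.H424R3.PowGen

/-!
# Project WU (MP_688e31_pr): the partitions exhaust a recurrent unimodular random graph
-/

set_option autoImplicit false

namespace Run7.h104.WU

open MeasureTheory Filter Finset
open scoped ENNReal Topology unitInterval
open Run7.h381.WU
open Pool.Agent.H424R3.Pow (RandomRootedGraph graphSigma hitWithin returnWithin nbrAvg Recurrent Nice
  nbrAvg_const nbrAvg_tendsto nbrAvg_eq hit hit_tendsto hit_o hit_le_one' eq_of_avg_le nbrAvg_add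
  nbrAvg_smul hit_le_one)

attribute [local instance] graphSigma

section one

variable {V : Type} {G : SimpleGraph V}

lemma rec_nice (hc : G.Connected) (hf : ∀ x, (G.neighborSet x).Finite) (hr : Rec G) : Nice G where
  conn := hc
  fin := hf
  pos x := by
    by_contra hne
    have he : G.neighborSet x = ∅ := Set.not_nonempty_iff_eq_empty.1 hne
    have h0 : ∀ f : V → ℝ, nbrAvg G f x = 0 := by
      intro f
      unfold nbrAvg
      rw [he, Set.ncard_empty]
      simp
    have h1 := hr x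
    have h2 : (fun n => returnWithin G x n) = fun _ => (0 : ℝ) := funext fun n => h0 _
    unfold Recurrent at h1
    rw [h2] at h1
    exact zero_ne_one (tendsto_nhds_unique tendsto_const_nhds h1)

lemma rec_hit (hG : Nice G) (hr : Rec G) {x y : V} (h : G.Adj x y) :
    Tendsto (fun M => hitWithin G x M y) atTop (𝓝 1) := by
  have h1 : nbrAvg G (hit G x) x = 1 :=
    tendsto_nhds_unique (nbrAvg_tendsto hG (fun y => hit_tendsto hG x y) x) (hr x)
  have h2 : hit G x y = 1 := by
    have h3 : nbrAvg G (fun z => 1 + (-1) * hit G x z) x = 0 := by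
      rw [nbrAvg_add hG (fun _ => 1) (fun z => (-1) * hit G x z), nbrAvg_const hG,
        nbrAvg_smul hG (-1) (hit G x), h1]
      norm_num
    have h4 := eq_of_avg_le hG (w := fun z => 1 + (-1) * hit G x z) (x := x) (m := 0)
      (by show 1 + (-1) * hit G x x = 0
          rw [hit_o hG]; norm_num)
      (fun z => by
        have := hit_le_one' hG x z
        show 0 ≤ 1 + (-1) * hit G x z
        linarith)
      (by rw [h3]
          show 0 ≤ 1 + (-1) * hit G x x
          rw [hit_o hG]; norm_num) h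
    have h5 : 1 + (-1) * hit G x y = 0 := h4
    linarith
  rw [← h2]
  exact hit_tendsto hG x y

/-- the labels for which `x` is separated from a neighbour -/
def Cut (c : ℝ) (N : ℕ) (G : SimpleGraph V) (x : V) : Set (V → I) :=
  {τ | ∃ y, G.Adj x y ∧ ¬ sim c N G τ x y}

lemma cut_ev [Countable V] (hC : S_CUT) (hG : Nice G) (hr : Rec G) (x : V) (c : ℝ) (hc : 0 < c) :
    ∀ᶠ N in atTop, labels V (Cut c N G x) ≤
      (hG.fin x).toFinset.card * ENNReal.ofReal (3 * Real.exp (-c)) := by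
  have he : 0 < Real.exp (-c) := Real.exp_pos _
  -- choice of `M`
  have hM : ∀ᶠ M : ℕ in atTop, ∀ y ∈ (hG.fin x).toFinset,
      c * (2 * (1 - hitWithin G x M y)) ≤ Real.exp (-c) := by
    rw [Filter.eventually_all_finset]
    intro y hy
    have hy' : G.Adj x y := by simpa using hy
    have h1 : Tendsto (fun M => c * (2 * (1 - hitWithin G x M y))) atTop (𝓝 (c * (2 * (1 - 1)))) :=
      ((tendsto_const_nhds.sub (rec_hit hG hr hy')).const_mul 2).const_mul c
    have h2 : c * (2 * (1 - 1)) < Real.exp (-c) := by simpa using he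
    exact (h1.eventually_lt_const h2).mono fun _ h => h.le
  obtain ⟨M, hM⟩ := hM.exists
  have hN : ∀ᶠ N : ℕ in atTop, c * (2 * M / N) ≤ Real.exp (-c) := by
    have h1 : Tendsto (fun N : ℕ => c * (2 * (M : ℝ) / N)) atTop (𝓝 (c * 0)) :=
      (tendsto_const_div_atTop_nhds_zero_nat (2 * (M : ℝ))).const_mul c
    have h2 : c * 0 < Real.exp (-c) := by simpa using he
    exact (h1.eventually_lt_const h2).mono fun _ h => h.le
  filter_upwards [hN, eventually_ge_atTop 1] with N hN1 hN2
  have hsub : Cut c N G x ⊆ ⋃ y ∈ (hG.fin x).toFinset, {τ : V → I | ¬ sim c N G τ x y} := by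
    rintro τ ⟨y, hy, hs⟩
    refine Set.mem_biUnion (x := y) ?_ hs
    simpa using hy
  calc labels V (Cut c N G x)
      ≤ labels V (⋃ y ∈ (hG.fin x).toFinset, {τ : V → I | ¬ sim c N G τ x y}) := measure_mono hsub
    _ ≤ ∑ y ∈ (hG.fin x).toFinset, labels V {τ : V → I | ¬ sim c N G τ x y} :=
        measure_biUnion_finset_le _ _
    _ ≤ ∑ _y ∈ (hG.fin x).toFinset, ENNReal.ofReal (3 * Real.exp (-c)) := by
        refine Finset.sum_le_sum fun y hy => (hC V G hG.fin hG.pos c N M hc hN2 x y).trans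
          (ENNReal.ofReal_le_ofReal ?_)
        have h3 := hM y hy
        rw [mul_add]
        linarith
    _ = (hG.fin x).toFinset.card * ENNReal.ofReal (3 * Real.exp (-c)) := by
        rw [Finset.sum_const, nsmul_eq_mul]

end one

section two

variable {V : Type} [Countable V] {Ω : Type} [MeasurableSpace Ω] {P : Measure Ω}

lemma meas_graph (X : RandomRootedGraph V P) : Measurable X.graph := by
  refine measurable_generateFrom ?_
  rintro _ ⟨x, y, rfl⟩
  exact X.measurable_adj x y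

lemma meas_adj (x y : V) : MeasurableSet {G : SimpleGraph V | G.Adj x y} :=
  MeasurableSpace.measurableSet_generateFrom ⟨x, y, rfl⟩

/-- the root is separated from a neighbour -/
def EE (X : RandomRootedGraph V P) (c : ℝ) (N : ℕ) : Set (Ω × (V → I)) :=
  {p | ∃ x y, X.root p.1 = x ∧ (X.graph p.1).Adj x y ∧ ¬ sim c N (X.graph p.1) p.2 x y}

lemma meas_EE (hM : S_MSIM) (X : RandomRootedGraph V P) (c : ℝ) (N : ℕ) :
    MeasurableSet (EE X c N) := by
  have h : EE X c N = ⋃ x, ⋃ y, ((fun p : Ω × (V → I) => p.1) ⁻¹' {ω | X.root ω = x} ∩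
      ((fun p : Ω × (V → I) => p.1) ⁻¹' {ω | (X.graph ω).Adj x y} ∩
      ((fun p : Ω × (V → I) => (X.graph p.1, p.2)) ⁻¹'
        {q : SimpleGraph V × (V → I) | sim c N q.1 q.2 x y})ᶜ)) := by
    ext p
    simp only [EE, Set.mem_setOf_eq, Set.mem_iUnion, Set.mem_inter_iff, Set.mem_preimage,
      Set.mem_compl_iff]
  rw [h]
  refine MeasurableSet.iUnion fun x => MeasurableSet.iUnion fun y => ?_
  refine (measurable_fst (X.measurable_root x)).inter
    ((measurable_fst (X.measurable_adj x y)).inter (MeasurableSet.compl ?_))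
  exact (((meas_graph X).comp measurable_fst).prodMk measurable_snd) (hM V c N x y)

lemma EE_sec (X : RandomRootedGraph V P) (c : ℝ) (N : ℕ) (ω : Ω) :
    Prod.mk ω ⁻¹' (EE X c N) = Cut c N (X.graph ω) (X.root ω) := by
  ext τ
  constructor
  · rintro ⟨x, y, rfl, h1, h2⟩
    exact ⟨y, h1, h2⟩
  · rintro ⟨y, h1, h2⟩
    exact ⟨_, y, rfl, h1, h2⟩

lemma meas_beta (hM : S_MSIM) (X : RandomRootedGraph V P) (c : ℝ) (N : ℕ) :
    Measurable fun ω => labels V (Cut c N (X.graph ω) (X.root ω)) := by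
  have hsf : SFinite (labels V) := by
    haveI : IsProbabilityMeasure (labels V) := by unfold labels; infer_instance
    infer_instance
  have h := measurable_measure_prodMk_left (ν := labels V) (meas_EE hM X c N)
  simpa only [EE_sec] using h

lemma exists_param [IsProbabilityMeasure P] (hC : S_CUT) (hM : S_MSIM) (X : RandomRootedGraph V P)
    (hr : ∀ᵐ ω ∂P, Rec (X.graph ω)) (δ : ℝ≥0∞) (hδ : 0 < δ) :
    ∃ (c : ℝ) (N : ℕ), 0 < c ∧ 1 ≤ N ∧
      ∫⁻ ω, labels V (Cut c N (X.graph ω) (X.root ω)) ∂P ≤ δ := by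
  haveI : IsProbabilityMeasure (labels V) := by unfold labels; infer_instance
  set β : ℕ → ℕ → Ω → ℝ≥0∞ := fun m N ω =>
    labels V (Cut ((m : ℝ) + 1) N (X.graph ω) (X.root ω)) with hβ
  have hβm : ∀ m N, Measurable (β m N) := fun m N => meas_beta hM X _ _
  have hβ1 : ∀ m N ω, β m N ω ≤ 1 := fun m N ω => prob_le_one
  set W : ℕ → Ω → ℝ≥0∞ := fun m ω => limsup (fun N => β m N ω) atTop with hW
  have hWm : ∀ m, Measurable (W m) := fun m => Measurable.limsup (hβm m)
  have hW1 : ∀ m ω, W m ω ≤ 1 := fun m ω =>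
    limsup_le_of_le (by isBoundedDefault) (Eventually.of_forall fun N => hβ1 m N ω)
  have hW0 : ∀ᵐ ω ∂P, Tendsto (fun m => W m ω) atTop (𝓝 0) := by
    filter_upwards [hr] with ω hω
    have hG : Nice (X.graph ω) := rec_nice (X.connected ω) (X.locallyFinite ω) hω
    have hle : ∀ m, W m ω ≤ ((hG.fin (X.root ω)).toFinset.card : ℝ≥0∞) *
        ENNReal.ofReal (3 * Real.exp (-((m : ℝ) + 1))) := fun m =>
      limsup_le_of_le (by isBoundedDefault) (cut_ev hC hG hω (X.root ω) _ (by positivity))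
    have ht : Tendsto (fun m : ℕ => ((hG.fin (X.root ω)).toFinset.card : ℝ≥0∞) *
        ENNReal.ofReal (3 * Real.exp (-((m : ℝ) + 1)))) atTop (𝓝 0) := by
      have h1 : Tendsto (fun m : ℕ => 3 * Real.exp (-((m : ℝ) + 1))) atTop (𝓝 (3 * 0)) :=
        (Real.tendsto_exp_neg_atTop_nhds_zero.comp
          ((tendsto_natCast_atTop_atTop (R := ℝ)).atTop_add tendsto_const_nhds)).const_mul 3
      rw [mul_zero] at h1
      have h2 := ENNReal.tendsto_ofReal h1
      rw [ENNReal.ofReal_zero] at h2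
      have h3 := ENNReal.Tendsto.const_mul (a := ((hG.fin (X.root ω)).toFinset.card : ℝ≥0∞)) h2
        (Or.inr (ENNReal.natCast_ne_top _))
      rwa [mul_zero] at h3
    exact tendsto_of_tendsto_of_tendsto_of_le_of_le tendsto_const_nhds ht (fun _ => zero_le) hle
  have hint : Tendsto (fun m => ∫⁻ ω, W m ω ∂P) atTop (𝓝 0) := by
    have h := tendsto_lintegral_of_dominated_convergence (μ := P) (F := W) (f := fun _ => 0)
      (fun _ => 1) hWm (fun m => Eventually.of_forall (hW1 m)) (by simp) hW0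
    simpa using h
  obtain ⟨m, hm⟩ := (hint.eventually_lt_const hδ).exists
  have hls : limsup (fun N => ∫⁻ ω, β m N ω ∂P) atTop ≤ ∫⁻ ω, W m ω ∂P :=
    limsup_lintegral_le (fun _ => 1) (hβm m) (fun N => Eventually.of_forall (hβ1 m N)) (by simp)
  have hev : ∀ᶠ N in atTop, ∫⁻ ω, β m N ω ∂P < δ :=
    eventually_lt_of_limsup_lt (hls.trans_lt hm) (by isBoundedDefault)
  obtain ⟨N, hN1, hN2⟩ := (hev.and (eventually_ge_atTop 1)).exists
  exact ⟨(m : ℝ) + 1, N, by positivity, hN2, hN1.le⟩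

/-- `x` is separated infinitely often from a neighbour -/
def Bd (c : ℕ → ℝ) (N : ℕ → ℕ) (x : V) : Set (SimpleGraph V × (V → ℕ → I)) :=
  {p | ∃ᶠ j in atTop, ∃ y, p.1.Adj x y ∧ ¬ sim (c j) (N j) p.1 (fun v => p.2 v (j + 1)) x y}

lemma meas_Bd (hM : S_MSIM) (c : ℕ → ℝ) (N : ℕ → ℕ) (x : V) : MeasurableSet (Bd c N x) := by
  have h : Bd c N x = ⋂ n : ℕ, ⋃ j : ℕ, ⋃ _ : n ≤ j, ⋃ y : V,
      ((fun p : SimpleGraph V × (V → ℕ → I) => p.1) ⁻¹' {G | G.Adj x y} ∩
      ((fun p : SimpleGraph V × (V → ℕ → I) => (p.1, fun v => p.2 v (j + 1))) ⁻¹'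
        {q : SimpleGraph V × (V → I) | sim (c j) (N j) q.1 q.2 x y})ᶜ) := by
    ext p
    simp only [Bd, Set.mem_setOf_eq, frequently_atTop, Set.mem_iInter, Set.mem_iUnion,
      Set.mem_inter_iff, Set.mem_preimage, Set.mem_compl_iff, exists_prop]
  rw [h]
  refine MeasurableSet.iInter fun n => MeasurableSet.iUnion fun j => MeasurableSet.iUnion fun _ =>
    MeasurableSet.iUnion fun y => ?_
  refine (measurable_fst (meas_adj x y)).inter (MeasurableSet.compl ?_)
  have hm : Measurable (fun p : SimpleGraph V × (V → ℕ → I) => (p.1, fun v => p.2 v (j + 1))) := by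
    refine measurable_fst.prodMk (measurable_pi_lambda _ fun v => ?_)
    exact (measurable_pi_apply (j + 1)).comp ((measurable_pi_apply v).comp measurable_snd)
  exact hm (hM V (c j) (N j) x y)

end two

theorem PART (hC : S_CUT) (hM : S_MSIM) : S_PART := by
  intro V _ Ω _ P _ X hU hr
  haveI hpl : IsProbabilityMeasure (labels V) := by unfold labels; infer_instance
  haveI hpl2 : IsProbabilityMeasure (labels2 V) := by unfold labels2; infer_instance
  have hex := fun j : ℕ => exists_param hC hM X hr ((2⁻¹ : ℝ≥0∞) ^ j)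
    (ENNReal.pow_pos (by simp) j)
  choose c N hc hN hint using hex
  refine ⟨c, N, hc, hN, ?_⟩
  -- Borel-Cantelli at the root
  set Ψ : ℕ → Ω × (V → ℕ → I) → Ω × (V → I) := fun j p => (p.1, fun v => p.2 v (j + 1)) with hΨ
  have hΨm : ∀ j, MeasurePreserving (Ψ j) (P.prod (labels2 V)) (P.prod (labels V)) := fun j =>
    (MeasurePreserving.id P).prod (mp_coord (j + 1))
  have hE : ∀ j, (P.prod (labels2 V)) (Ψ j ⁻¹' EE X (c j) (N j)) ≤ (2⁻¹ : ℝ≥0∞) ^ j := by
    intro j
    rw [(hΨm j).measure_preimage (meas_EE hM X _ _).nullMeasurableSet,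
      Measure.prod_apply (meas_EE hM X _ _)]
    simp only [EE_sec]
    exact hint j
  have hsum : ∑' j, (P.prod (labels2 V)) (Ψ j ⁻¹' EE X (c j) (N j)) ≠ ∞ := by
    refine ne_top_of_le_ne_top ?_ (ENNReal.tsum_le_tsum hE)
    rw [ENNReal.tsum_geometric]
    simp
  have hBC := Measure.ae_ae_of_ae_prod (ae_eventually_notMem hsum)
  -- the root is almost surely good
  have hroot : ∀ᵐ ω ∂P, labels2 V (Prod.mk (X.graph ω) ⁻¹' Bd c N (X.root ω)) = 0 := by
    filter_upwards [hBC] with ω hω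
    refine measure_mono_null ?_ (ae_iff.1 hω)
    intro a ha
    have ha' : ∃ᶠ j in atTop, ∃ y, (X.graph ω).Adj (X.root ω) y ∧
      ¬ sim (c j) (N j) (X.graph ω) (fun v => a v (j + 1)) (X.root ω) y := ha
    show ¬ ∀ᶠ j in atTop, (ω, a) ∉ Ψ j ⁻¹' EE X (c j) (N j)
    rw [not_eventually]
    refine ha'.mono ?_
    rintro j ⟨y, h1, h2⟩
    rw [not_not]
    exact ⟨_, y, rfl, h1, h2⟩
  -- mass transport
  have hmt := hU (fun G _ y => labels2 V (Prod.mk G ⁻¹' Bd c N y))
    (fun _ y => measurable_measure_prodMk_left (meas_Bd hM c N y))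
    (by
      intro G G' γ _ y
      rw [← (mp_relabel γ.toEquiv).measure_preimage
        (measurable_prodMk_left (meas_Bd hM c N (γ y))).nullMeasurableSet]
      congr 1
      ext a
      show (∃ᶠ j in atTop, ∃ z, G'.Adj (γ y) z ∧ ¬ sim (c j) (N j) G'
          (fun v => a (γ.symm v) (j + 1)) (γ y) z) ↔
        (∃ᶠ j in atTop, ∃ z, G.Adj y z ∧ ¬ sim (c j) (N j) G (fun v => a v (j + 1)) y z)
      refine frequently_congr (Eventually.of_forall fun j => ?_)
      constructor
      · rintro ⟨z, h1, h2⟩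
        obtain ⟨z, rfl⟩ := γ.surjective z
        exact ⟨z, γ.map_rel_iff.1 h1, fun h => h2 ((sim_eqv γ _ _ (fun v => a v (j + 1)) y z).2 h)⟩
      · rintro ⟨z, h1, h2⟩
        exact ⟨γ z, γ.map_rel_iff.2 h1,
          fun h => h2 ((sim_eqv γ _ _ (fun v => a v (j + 1)) y z).1 h)⟩)
  have hzero : ∫⁻ ω, ∑' x, labels2 V (Prod.mk (X.graph ω) ⁻¹' Bd c N x) ∂P = 0 := by
    rw [hmt]
    rw [lintegral_congr_ae (g := fun _ => 0)]
    · simp
    · filter_upwards [hroot] with ω hω
      simp [hω]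
  have hall : ∀ᵐ ω ∂P, ∀ x, labels2 V (Prod.mk (X.graph ω) ⁻¹' Bd c N x) = 0 := by
    have hm : Measurable fun ω => ∑' x, labels2 V (Prod.mk (X.graph ω) ⁻¹' Bd c N x) :=
      Measurable.ennreal_tsum fun x =>
        (measurable_measure_prodMk_left (meas_Bd hM c N x)).comp (meas_graph X)
    have h1 := (lintegral_eq_zero_iff hm).1 hzero
    filter_upwards [h1] with ω hω x
    have h2 : ∑' x, labels2 V (Prod.mk (X.graph ω) ⁻¹' Bd c N x) = 0 := hω
    exact ENNReal.tsum_eq_zero.1 h2 x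
  filter_upwards [hall] with ω hω
  have h3 : ∀ᵐ a ∂(labels2 V), ∀ x, (X.graph ω, a) ∉ Bd c N x := by
    rw [ae_all_iff]
    intro x
    exact measure_eq_zero_iff_ae_notMem.1 (hω x)
  filter_upwards [h3] with a ha x y hxy
  have h4 : ∀ᶠ j in atTop, ∀ y, (X.graph ω).Adj x y →
      sim (c j) (N j) (X.graph ω) (fun v => a v (j + 1)) x y := by
    have h5 := ha x
    have h6 : ¬ ∃ᶠ j in atTop, ∃ y, (X.graph ω).Adj x y ∧
      ¬ sim (c j) (N j) (X.graph ω) (fun v => a v (j + 1)) x y := h5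
    rw [not_frequently] at h6
    refine h6.mono fun j hj y hy => ?_
    by_contra hcon
    exact hj ⟨y, hy, hcon⟩
  obtain ⟨k, hk⟩ := eventually_atTop.1 h4
  exact ⟨k + 1, fun j hj => hk j hj y hxy⟩

end Run7.h104.WU
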