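import Pool.Agent.Run7.h381.WU.Stm

/-!
# Project WU (MP_688e31_pr): equivariance of the relations, invariance of the labels
-/

set_option autoImplicit false

namespace Run7.h104.WU

open MeasureTheory Filter Finset
open scoped ENNReal Topology unitInterval
open Run7.h381.WU
open Pool.Agent.H424R3.Pow (RandomRootedGraph graphSigma hitWithin returnWithin nbrAvg Recurrent)

variable {V : Type} {G G' : SimpleGraph V}

lemma nbr_image (γ : G ≃g G') (x : V) : G'.neighborSet (γ x) = γ '' G.neighborSet x := by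
  ext y
  constructor
  · intro h
    refine ⟨γ.symm y, ?_, γ.apply_symm_apply y⟩
    have h1 : G'.Adj (γ x) y := h
    have h2 : G'.Adj (γ x) (γ (γ.symm y)) := by rwa [γ.apply_symm_apply]
    exact γ.map_rel_iff.1 h2
  · rintro ⟨z, hz, rfl⟩
    exact γ.map_rel_iff.2 hz

lemma nbrAvg_eqv (γ : G ≃g G') (f : V → ℝ) (x : V) :
    nbrAvg G' f (γ x) = nbrAvg G (fun y => f (γ y)) x := by
  unfold nbrAvg
  rw [nbr_image γ x, Set.ncard_image_of_injective _ γ.injective,
    finsum_mem_image γ.injective.injOn]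

lemma iter_eqv (γ : G ≃g G') (t : ℕ) : ∀ (f : V → ℝ) (x : V),
    (nbrAvg G')^[t] f (γ x) = (nbrAvg G)^[t] (fun y => f (γ y)) x := by
  induction t with
  | zero => intro f x; rfl
  | succ t ih =>
    intro f x
    rw [Function.iterate_succ_apply, Function.iterate_succ_apply, ih]
    exact congrFun (congrArg ((nbrAvg G)^[t]) (funext fun y => nbrAvg_eqv γ f y)) x

lemma hh_eqv (γ : G ≃g G') (N : ℕ) (x w : V) : hh G' N (γ x) (γ w) = hh G N x w := by
  unfold hh GA
  congr 1
  refine Finset.sum_congr rfl fun t _ => ?_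
  rw [iter_eqv γ t]
  refine congrFun (congrArg ((nbrAvg G)^[t]) (funext fun y => ?_)) x
  by_cases h : y = w
  · rw [if_pos h, if_pos (by rw [h])]
  · rw [if_neg h, if_neg (fun h' => h (γ.injective h'))]

lemma SS_eqv (γ : G ≃g G') (c : ℝ) (N : ℕ) (τ : V → I) (x w : V) :
    γ w ∈ SS c N G' (fun v => τ (γ.symm v)) (γ x) ↔ w ∈ SS c N G τ x := by
  show ((τ (γ.symm (γ w)) : ℝ) < c * hh G' N (γ x) (γ w)) ↔ ((τ w : ℝ) < c * hh G N x w)
  rw [γ.symm_apply_apply, hh_eqv]

lemma sim_eqv (γ : G ≃g G') (c : ℝ) (N : ℕ) (τ : V → I) (x y : V) :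
    sim c N G' (fun v => τ (γ.symm v)) (γ x) (γ y) ↔ sim c N G τ x y := by
  show (γ x = γ y ∨ (SS c N G' (fun v => τ (γ.symm v)) (γ x) =
    SS c N G' (fun v => τ (γ.symm v)) (γ y) ∧ (SS c N G' (fun v => τ (γ.symm v)) (γ x)).Nonempty)) ↔
    (x = y ∨ (SS c N G τ x = SS c N G τ y ∧ (SS c N G τ x).Nonempty))
  have h1 : SS c N G' (fun v => τ (γ.symm v)) (γ x) = SS c N G' (fun v => τ (γ.symm v)) (γ y) ↔
      SS c N G τ x = SS c N G τ y := by
    constructor
    · intro h
      ext w
      rw [← SS_eqv γ, ← SS_eqv γ, h]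
    · intro h
      ext w
      obtain ⟨z, rfl⟩ := γ.surjective w
      rw [SS_eqv γ, SS_eqv γ, h]
  have h2 : (SS c N G' (fun v => τ (γ.symm v)) (γ x)).Nonempty ↔ (SS c N G τ x).Nonempty := by
    constructor
    · rintro ⟨w, hw⟩
      obtain ⟨z, rfl⟩ := γ.surjective w
      exact ⟨z, (SS_eqv γ c N τ x z).1 hw⟩
    · rintro ⟨w, hw⟩
      exact ⟨γ w, (SS_eqv γ c N τ x w).2 hw⟩
  rw [h1, h2, γ.injective.eq_iff]

/-- relabelling the vertices preserves the law of the labels -/
lemma mp_relabel (e : V ≃ V) : MeasurePreserving (fun (a : V → ℕ → I) v => a (e.symm v))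
    (labels2 V) (labels2 V) where
  measurable := by fun_prop
  map_eq := by
    have h := Measure.infinitePi_map_piCongrLeft
      (fun _ : V => Measure.infinitePi fun _ : ℕ => (volume : Measure I)) e
    refine Eq.trans ?_ h
    unfold labels2
    congr 1
    funext a v
    obtain ⟨z, rfl⟩ := e.surjective v
    rw [e.symm_apply_apply, MeasurableEquiv.coe_piCongrLeft]
    exact (Equiv.piCongrLeft_apply_apply (fun _ : V => ℕ → I) e a z).symm

/-- a coordinate of the sequences of labels -/
lemma mp_coord (j : ℕ) : MeasurePreserving (fun (a : V → ℕ → I) v => a v j)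
    (labels2 V) (labels V) where
  measurable := by fun_prop
  map_eq := by
    unfold labels2 labels
    rw [Measure.infinitePi_map_pi (fun _ : V => Measure.infinitePi fun _ : ℕ => (volume : Measure I))
      (f := fun _ b => b j) (fun _ => measurable_pi_apply j)]
    congr 1
    funext v
    exact Measure.infinitePi_map_eval _ j

end Run7.h104.WU
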